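import Mathlib

set_option autoImplicit false

namespace Pool.Agent.H.MP_d66326_al
open SimpleGraph

variable {T : Type} {Γ : SimpleGraph T} (hT : Γ.IsTree)
include hT

lemma tri (x y z : T) : Γ.dist x z ≤ Γ.dist x y + Γ.dist y z := hT.connected.dist_triangle

lemma zero {x y : T} (h : Γ.dist x y = 0) : x = y := hT.connected.dist_eq_zero_iff.1 h

lemma step {x y : T} (h : x ≠ y) : ∃ p, Γ.dist x p = 1 ∧ Γ.dist p y + 1 = Γ.dist x y := by
  obtain ⟨w, hw⟩ := hT.connected.exists_walk_length_eq_dist x y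
  cases w with
  | nil => exact absurd rfl h
  | @cons _ p _ e w =>
    have h1 := dist_eq_one_iff_adj.2 e
    have h2 := dist_le w
    have h3 := tri hT x p y
    rw [Walk.length_cons] at hw
    exact ⟨p, h1, by omega⟩

lemma par (u : T) {v w : T} (h : Γ.dist v w = 1) : Γ.dist u v ≠ Γ.dist u w :=
  hT.dist_ne_of_adj u (dist_eq_one_iff_adj.1 h)

lemma key {x m y : T} (h : Γ.dist x m + Γ.dist m y = Γ.dist x y) (z : T) :
    Γ.dist x m + Γ.dist m z = Γ.dist x z ∨ Γ.dist y m + Γ.dist m z = Γ.dist y z := by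
  classical
  have bt : ∀ {x y : T} (p : Γ.Walk x y), p.length = Γ.dist x y → m ∈ p.support →
      Γ.dist x m + Γ.dist m y = Γ.dist x y := fun {x y} p c d => by
    have h1 := congrArg Walk.length (p.take_spec d)
    rw [Walk.length_append] at h1
    have := dist_le (p.takeUntil m d)
    have := dist_le (p.dropUntil m d)
    have := tri hT x m y
    omega
  obtain ⟨p, hp⟩ := hT.connected.exists_walk_length_eq_dist x z
  obtain ⟨q, hq⟩ := hT.connected.exists_walk_length_eq_dist y z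
  obtain ⟨a, ha⟩ := hT.connected.exists_walk_length_eq_dist x m
  obtain ⟨b, hb⟩ := hT.connected.exists_walk_length_eq_dist m y
  have h1 : (a.append b).IsPath := Walk.isPath_of_length_eq_dist _ (by simp [ha, hb, h])
  have h2 := (hT.isAcyclic.subsingleton_path _ _).elim ⟨_, h1⟩ (p.append q.reverse).toPath
  have h3 : m ∈ (p.append q.reverse).support := Walk.support_toPath_subset_support _ (by
    rw [← h2]; simp)
  rw [Walk.mem_support_append_iff, Walk.support_reverse, List.mem_reverse] at h3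
  exact h3.imp (bt p hp) (bt q hq)

lemma uniq {x y p q : T} (h1 : Γ.dist x p + Γ.dist p y = Γ.dist x y)
    (h2 : Γ.dist x q + Γ.dist q y = Γ.dist x y) (h3 : Γ.dist x p = Γ.dist x q) : p = q := by
  have := key hT h1 q
  rw [dist_comm (u := y) (v := p), dist_comm (u := y) (v := q)] at this
  exact zero hT (by omega)

lemma fin_btw (x y : T) : {p | Γ.dist x p + Γ.dist p y = Γ.dist x y}.Finite :=
  Set.Finite.of_finite_image (f := Γ.dist x) ((Set.finite_le_nat (Γ.dist x y)).subset (by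
    rintro _ ⟨p, c, rfl⟩; exact Nat.le.intro c)) fun _ c _ d e => uniq hT c d e

variable {H : Type} [Group H] [MulAction H T]
  (hA : ∀ (g : H) u v, Γ.Adj u v → Γ.Adj (g • u) (g • v))
include hA

lemma iso (g : H) (x y : T) : Γ.dist (g • x) (g • y) = Γ.dist x y := by
  have k : ∀ (g : H) x y, Γ.dist (g • x) (g • y) ≤ Γ.dist x y := fun g x y => by
    obtain ⟨p, hp⟩ := hT.connected.exists_walk_length_eq_dist x y
    simpa [hp] using dist_le (p.map ⟨(g • ·), hA g _ _⟩)
  exact (k g x y).antisymm (by simpa using k g⁻¹ (g • x) (g • y))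

lemma common (S : Finset H) (h1 : ∀ a ∈ S, ∀ b ∈ S, Commute a b) (h2 : ∀ a ∈ S, ∃ x : T, a • x = x) :
    ∃ x : T, ∀ a ∈ S, a • x = x := by
  classical
  induction S using Finset.induction with
  | empty => exact hT.connected.nonempty.elim fun x => ⟨x, by simp⟩
  | insert b S _ ih =>
    obtain ⟨y, hy⟩ := h2 b (by simp)
    have ex : ∃ n, ∃ x : T, (∀ a ∈ S, a • x = x) ∧ Γ.dist y x = n :=
      let ⟨x, c⟩ := ih (fun a c b d => h1 a (by simp [c]) b (by simp [d]))
        fun a c => h2 a (by simp [c])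
      ⟨_, x, c, rfl⟩
    obtain ⟨x, c1, c2⟩ := Nat.find_spec ex
    refine ⟨x, fun a c => (Finset.mem_insert.1 c).elim (fun e => e ▸ by_contra fun k => ?_) (c1 a)⟩
    obtain ⟨p, p1, p2⟩ := step hT (Ne.symm k)
    have p3 : Γ.dist x p + Γ.dist p (b • x) = Γ.dist x (b • x) := by omega
    have p4 : ∀ a ∈ S, a • p = p := fun a c => by
      have e : a • b • x = b • x := by
        rw [smul_smul, (h1 a (by simp [c]) b (by simp)).eq, mul_smul, c1 a c]
      have e1 := iso hT hA a x p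
      have e2 := iso hT hA a p (b • x)
      rw [c1 a c] at e1
      rw [e] at e2
      exact uniq hT (by omega) p3 e1
    have p5 := Nat.find_min' ex ⟨p, p4, rfl⟩
    have p6 := iso hT hA b y x
    have p7 := par hT y p1
    have p8 := key hT p3 y
    rw [hy] at p6
    simp only [dist_comm (v := y), dist_comm (u := b • x) (v := p)] at p8
    rcases p8 with p8 | p8
    · omega
    · obtain rfl : p = b • x := zero hT (by omega)
      omega

lemma axis {a : H} (h0 : ∀ x : T, a • x ≠ x)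
    (h1 : ∀ u v : T, Γ.Adj u v → ¬ (a • u = v ∧ a • v = u)) {x : T}
    (h2 : ∀ y, Γ.dist x (a • x) ≤ Γ.dist y (a • y)) :
    Γ.dist (a⁻¹ • x) x + Γ.dist x (a • x) = Γ.dist (a⁻¹ • x) (a • x) := by
  obtain ⟨p, p1, p2⟩ := step hT (h0 x).symm
  obtain ⟨q, q1, q2⟩ := step hT (x := x) (y := a⁻¹ • x) fun e => h0 x (smul_eq_iff_eq_inv_smul _ |>.2 e)
  have e1 : Γ.dist x (a⁻¹ • x) = Γ.dist x (a • x) := by
    rw [← iso hT hA a, smul_inv_smul, dist_comm]
  by_cases c : p = q
  · subst c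
    exfalso
    have e2 : Γ.dist (a • p) x = Γ.dist p (a⁻¹ • x) := by rw [← iso hT hA a p, smul_inv_smul]
    have e3 := iso hT hA a x p
    have e4 := h2 p
    have e5 := key hT (x := x) (m := p) (y := a • x) (by omega) (a • p)
    rw [dist_comm (u := a • p)] at e2
    rw [dist_comm (u := a • x) (v := p)] at e5
    by_cases d : Γ.dist x (a • x) = 1
    · have d1 : p = a • x := zero hT (by omega)
      have d2 : x = a • p := zero hT (by omega)
      exact h1 x p (dist_eq_one_iff_adj.1 p1) ⟨d1.symm, d2.symm⟩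
    · omega
  · have c1 : Γ.dist p q ≠ 0 := fun e => c (zero hT e)
    have c2 := tri hT p x q
    have c3 : Γ.dist p q ≠ 1 := fun e => par hT x e (by omega)
    have c4 := dist_comm (G := Γ) (u := p) (v := x)
    have c5 := dist_comm (G := Γ) (u := q) (v := x)
    have c6 := key hT (x := p) (m := x) (y := q) (by omega) (a • x)
    have c7 := key hT (x := q) (m := x) (y := a • x) (by omega) (a⁻¹ • x)
    rw [dist_comm (u := a⁻¹ • x), dist_comm (u := a⁻¹ • x)]
    rw [dist_comm (u := a • x) (v := x)] at c7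
    omega

lemma onaxis {a : H} (h0 : ∀ x : T, a • x ≠ x)
    (h1 : ∀ u v : T, Γ.Adj u v → ¬ (a • u = v ∧ a • v = u)) {x y : T}
    (h2 : ∀ y, Γ.dist x (a • x) ≤ Γ.dist y (a • y)) (h3 : Γ.dist y (a • y) = Γ.dist x (a • x)) :
    ∃ n : ℤ, Γ.dist x (a ^ n • y) + Γ.dist (a ^ n • y) (a • x) = Γ.dist x (a • x) := by
  classical
  have ex : ∃ k, ∃ n : ℤ, Γ.dist x (a ^ n • y) = k := ⟨_, 0, rfl⟩
  obtain ⟨n, hn⟩ := Nat.find_spec ex
  have m1 := Nat.find_min' ex ⟨n + 1, rfl⟩
  have m2 := Nat.find_min' ex ⟨n + -1, rfl⟩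
  have e0 : Γ.dist (a ^ n • y) (a • a ^ n • y) = Γ.dist x (a • x) := by
    rw [smul_smul, ← zpow_one_add, add_comm, zpow_add_one, mul_smul, iso hT hA, h3]
  have z1 : a ^ (n + 1) • y = a • a ^ n • y := by rw [add_comm, zpow_one_add, mul_smul]
  have z2 : a ^ (n + -1) • y = a⁻¹ • a ^ n • y := by
    rw [add_comm, zpow_add, zpow_neg_one, mul_smul]
  rw [z1] at m1
  rw [z2] at m2
  suffices Γ.dist x (a ^ n • y) + Γ.dist (a ^ n • y) (a • x) = Γ.dist x (a • x) ∨
      Γ.dist x (a • a ^ n • y) + Γ.dist (a • a ^ n • y) (a • x) = Γ.dist x (a • x) from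
    this.elim (fun c => ⟨n, c⟩) fun c => ⟨n + 1, z1 ▸ c⟩
  generalize a ^ n • y = w at *
  have l0 : Γ.dist x (a • x) ≠ 0 := fun e => h0 x (zero hT e).symm
  have i1 := iso hT hA a (a⁻¹ • x) w
  have i2 := iso hT hA a (a⁻¹ • x) x
  have i3 := iso hT hA a w x
  have i4 := iso hT hA a x (a⁻¹ • w)
  have i5 := iso hT hA a (a⁻¹ • w) w
  have i6 := iso hT hA a (a⁻¹ • w) (a⁻¹ • x)
  simp only [smul_inv_smul] at i1 i2 i4 i5 i6
  have s1 := dist_comm (G := Γ) (u := a • x) (v := x)
  have s2 := dist_comm (G := Γ) (u := w) (v := x)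
  have s3 := dist_comm (G := Γ) (u := a • w) (v := w)
  have s4 := dist_comm (G := Γ) (u := a • x) (v := w)
  have s5 := dist_comm (G := Γ) (u := a⁻¹ • w) (v := w)
  have s6 := dist_comm (G := Γ) (u := a⁻¹ • x) (v := w)
  have s7 := dist_comm (G := Γ) (u := a⁻¹ • x) (v := x)
  rcases key hT (axis hT hA h0 h1 h2) w with c | c
  · have := key hT (x := x) (m := w) (y := a • w) (by omega) (a • x)
    omega
  · have := key hT (x := x) (m := w) (y := a⁻¹ • w) (by omega) (a⁻¹ • x)
    omega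

lemma vfg [Group.FG H] (F : Set (T × T)) (hF : F.Finite)
    (h1 : ∀ u v, Γ.Adj u v → ∃ (g : H), (g • u, g • v) ∈ F)
    (h2 : ∀ u v, Γ.Adj u v → (MulAction.stabilizer H u ⊓ MulAction.stabilizer H v).FG) (v : T) :
    (MulAction.stabilizer H v).FG := by
  classical
  obtain ⟨S, hS⟩ := Group.fg_def.1 ‹_›
  have n1 : ∀ w : T, ∃ p, w ≠ v → Γ.dist v p = 1 ∧ Γ.dist p w + 1 = Γ.dist v w := fun w => by
    by_cases c : w = v
    · exact ⟨v, fun d => absurd c d⟩
    · exact (step hT (Ne.symm c)).imp fun _ h _ => h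
  choose nb n1 using n1
  have n2 : ∀ w p, w ≠ v → Γ.dist v p = 1 → Γ.dist p w + 1 = Γ.dist v w → p = nb w :=
    fun w p c d e => uniq hT (x := v) (y := w) (by omega) (by have := n1 w c; omega)
      (by have := n1 w c; omega)
  have n3 : ∀ w w', w ≠ v → w' ≠ v → Γ.dist w v + Γ.dist v w' ≠ Γ.dist w w' → nb w = nb w' := by
    intro w w' c c' d
    obtain ⟨a1, a2⟩ := n1 w c
    obtain ⟨b1, b2⟩ := n1 w' c'
    by_contra e
    have c1 : Γ.dist (nb w) (nb w') ≠ 0 := fun k => e (zero hT k)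
    have c2 := tri hT (nb w) v (nb w')
    have c3 : Γ.dist (nb w) (nb w') ≠ 1 := fun e => par hT v e (by omega)
    have c4 := dist_comm (G := Γ) (u := nb w) (v := v)
    have c5 := dist_comm (G := Γ) (u := nb w') (v := v)
    have c6 := key hT (x := nb w) (m := v) (y := nb w') (by omega) w'
    have c7 := key hT (x := nb w) (m := v) (y := w') (by omega) w
    rw [dist_comm (u := w') (v := v), dist_comm (u := w') (v := w),
      dist_comm (u := v) (v := w)] at c7
    rw [dist_comm (u := v) (v := w)] at a2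
    omega
  have r1 : ∀ e : T × T, ∃ p, ∀ (g : H) u, (g • v, g • u) = e → ∃ k : H, k • v = v ∧ k • p = u :=
    fun e => by
      by_cases c : ∃ (g : H) (u : T), (g • v, g • u) = e
      · obtain ⟨g, u, rfl⟩ := c
        refine ⟨u, fun g' u' d => ⟨g'⁻¹ * g, ?_, ?_⟩⟩ <;> rw [mul_smul, inv_smul_eq_iff]
        exacts [(congrArg Prod.fst d).symm, (congrArg Prod.snd d).symm]
      · exact ⟨v, fun g u d => absurd ⟨g, u, d⟩ c⟩
  choose rp r1 using r1
  have r2 : ∀ u, ∃ (k : H) (p : T), k • v = v ∧ (Γ.Adj v u → p ∈ rp '' F ∧ k • p = u) := fun u => by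
    by_cases c : Γ.Adj v u
    · obtain ⟨g, d⟩ := h1 v u c
      obtain ⟨k, d1, d2⟩ := r1 _ g u rfl
      exact ⟨k, _, d1, fun _ => ⟨⟨_, d, rfl⟩, d2⟩⟩
    · exact ⟨1, v, one_smul _ _, fun d => absurd d c⟩
  choose k p k1 k2 using r2
  have x1 : ∀ e : T × T, ∃ X : Set H, X.Finite ∧ (∀ g ∈ X, g • v = v) ∧ (Γ.Adj v e.1 →
      ∀ g : H, g • v = v → g • e.1 = e.2 → g ∈ Subgroup.closure X) := fun e => by
    by_cases c : Γ.Adj v e.1 ∧ ∃ g : H, g • v = v ∧ g • e.1 = e.2
    · obtain ⟨c, g, c1, c2⟩ := c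
      obtain ⟨X, hX⟩ := h2 v e.1 c
      refine ⟨insert g X, X.finite_toSet.insert g, fun a d => d.elim (fun e => e ▸ c1) fun d =>
        (hX.le (Subgroup.subset_closure d)).1, fun _ a d1 d2 => ?_⟩
      have : g⁻¹ * a ∈ Subgroup.closure (X : Set H) := hX.ge ⟨by
        simp [mul_smul, d1, inv_smul_eq_iff, c1], by simp [mul_smul, d2, inv_smul_eq_iff, c2]⟩
      simpa using mul_mem (Subgroup.subset_closure (Set.mem_insert g _))
        (Subgroup.closure_mono (Set.subset_insert g _) this)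
    · exact ⟨∅, by simp, by simp, fun d g d1 d2 => absurd ⟨d, g, d1, d2⟩ c⟩
  choose X X1 X2 X3 using x1
  let f : H → H := fun b => if b • v = v then b else k (nb (b • v))
  have f1 : ∀ b, f b • v = v := fun b => by simp only [f]; split_ifs with c; exacts [c, k1 _]
  have c1 : ∀ y : T, ∃ c : H, ∀ b : H, b • y = v → c • y = v := fun y => by
    by_cases c : ∃ b : H, b • y = v
    · exact c.imp fun _ h _ _ => h
    · exact ⟨1, fun b d => absurd ⟨b, d⟩ c⟩
  choose c c1 using c1
  let Z : Set H := (⋃ e ∈ (rp '' F) ×ˢ (rp '' F), X e) ∪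
    ⋃ s ∈ (S : Set H), ⋃ y ∈ {y | Γ.dist v y + Γ.dist y (s • v) = Γ.dist v (s • v)},
      {f (c y), f (c y * s)}
  have z1 : Z.Finite := (((hF.image _).prod (hF.image _)).biUnion fun e _ => X1 e).union
    (S.finite_toSet.biUnion fun s _ => (fin_btw hT _ _).biUnion fun _ _ => by simp)
  have f2 : ∀ g b : H, g • v = v → (f (g * b))⁻¹ * g * f b ∈ Subgroup.closure Z := by
    intro g b d
    have e : (g * b) • v = v ↔ b • v = v := by
      rw [mul_smul, smul_eq_iff_eq_inv_smul, inv_smul_eq_iff.2 d.symm]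
    simp only [f, e]
    split_ifs with l
    · simp
    obtain ⟨a1, a2⟩ := n1 _ l
    have a3 := iso hT hA g v (nb (b • v))
    have a4 := iso hT hA g (nb (b • v)) (b • v)
    have a5 := iso hT hA g v (b • v)
    rw [d] at a3 a5
    rw [mul_smul, ← n2 (g • b • v) (g • nb (b • v)) (by rwa [← mul_smul, Ne, e]) (by omega)
      (by omega)]
    have b1 := k2 _ (dist_eq_one_iff_adj.1 a1)
    have b2 := k2 _ (dist_eq_one_iff_adj.1 (a3.trans a1))
    refine Subgroup.closure_mono (Set.subset_union_of_subset_left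
      (Set.subset_biUnion_of_mem (u := X) (Set.mk_mem_prod b1.1 b2.1)) _) (X3 _ ?_ _ ?_ ?_)
    · simpa [inv_smul_eq_iff.2 (k1 _).symm, inv_smul_eq_iff.2 b1.2.symm] using
        hA (k (nb (b • v)))⁻¹ _ _ (dist_eq_one_iff_adj.1 a1)
    · simp [mul_smul, k1, d, inv_smul_eq_iff]
    · simp [mul_smul, b1.2, b2.2, inv_smul_eq_iff]
  have f3 : ∀ s ∈ Subgroup.closure (S : Set H), ∀ b, (f (b * s))⁻¹ * f b ∈ Subgroup.closure Z := by
    intro s hs
    induction hs using Subgroup.closure_induction with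
    | one => simp
    | mul s t _ _ h h' => exact fun b => by simpa [mul_assoc] using mul_mem (h' (b * s)) (h b)
    | inv s _ h => exact fun b => by simpa using inv_mem (h (b * s⁻¹))
    | mem s hs =>
      intro b
      by_cases d : Γ.dist (b • v) v + Γ.dist v ((b * s) • v) = Γ.dist (b • v) ((b * s) • v)
      · have d1 : Γ.dist v (b⁻¹ • v) + Γ.dist (b⁻¹ • v) (s • v) = Γ.dist v (s • v) := by
          rw [← iso hT hA b, ← iso hT hA b _ (s • v), ← iso hT hA b v (s • v)]
          simpa [mul_smul] using d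
        have d2 := c1 _ b (smul_inv_smul b v)
        have d3 : (b * (c (b⁻¹ • v))⁻¹) • v = v := by
          rw [mul_smul, inv_smul_eq_iff.2 d2.symm, smul_inv_smul]
        have m : ∀ x ∈ ({f (c (b⁻¹ • v)), f (c (b⁻¹ • v) * s)} : Set H),
            x ∈ Subgroup.closure Z := fun x e => Subgroup.subset_closure
          (Or.inr (Set.mem_biUnion hs (Set.mem_biUnion d1 e)))
        simpa [mul_assoc] using mul_mem (mul_mem (mul_mem (f2 _ (c (b⁻¹ • v) * s) d3)
          (inv_mem (m (f (c (b⁻¹ • v) * s)) (by simp)))) (m (f (c (b⁻¹ • v))) (by simp)))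
          (inv_mem (f2 _ (c (b⁻¹ • v)) d3))
      · have d1 : b • v ≠ v := fun e => d (by simp [e])
        have d2 : (b * s) • v ≠ v := fun e => d (by simp [e])
        simp [f, d1, d2, n3 _ _ d1 d2 d]
  refine (Subgroup.fg_iff _).2 ⟨Z, le_antisymm ((Subgroup.closure_le _).2 ?_) fun g d => ?_, z1⟩
  · rintro x (d | d) <;> simp only [Set.mem_iUnion] at d
    · obtain ⟨e, -, d⟩ := d
      exact X2 e x d
    · obtain ⟨s, -, y, -, rfl | rfl⟩ := d <;> exact f1 _
  · have d' : g • v = v := d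
    simpa [f, d'] using f3 g (hS ▸ trivial) 1

end Pool.Agent.H.MP_d66326_al
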