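import Mathlib

set_option autoImplicit false

namespace Pool.Agent.H.MP_d66326_al
open Polynomial

abbrev K : Type := ℝ

noncomputable def x : K := liouvilleNumber (2 : ℕ)

lemma x_tz : Transcendental ℤ x := transcendental_liouvilleNumber le_rfl

lemma x_tr : Transcendental ℚ x := fun c => x_tz ((IsFractionRing.isAlgebraic_iff ℤ ℚ K).2 c)

lemma x_inj {p : ℤ[X]} (h : aeval x p = 0) : p = 0 := transcendental_iff.1 x_tz p h

lemma x0 : x ≠ 0 := fun h => X_ne_zero (x_inj (by simpa using h))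

lemma x1 : 1 + x ≠ 0 := fun h => by
  have := x_inj (p := 1 + X) (by simpa using h)
  simpa using congrArg (eval 0) this

noncomputable def u (n : ℤ × ℤ) : K := x ^ n.1 * (1 + x) ^ n.2

lemma u_add (n m : ℤ × ℤ) : u (n + m) = u n * u m := by
  simp only [u, Prod.fst_add, Prod.snd_add, zpow_add₀ x0, zpow_add₀ x1]; ring

@[simp] lemma u_zero : u 0 = 1 := by simp [u]

lemma u_ne (n : ℤ × ℤ) : u n ≠ 0 := mul_ne_zero (zpow_ne_zero _ x0) (zpow_ne_zero _ x1)

lemma u_tr {n : ℤ × ℤ} (h : n ≠ 0) : Transcendental ℚ (u n) := fun c => h (by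
  let S := algebraicClosure ℚ K
  have h1 : Transcendental S x := x_tr.algebraicClosure
  let d : S := ⟨u n, mem_algebraicClosure_iff.2 c⟩
  obtain ⟨N, hN⟩ : ∃ N, N = n.1.natAbs + n.2.natAbs := ⟨_, rfl⟩
  obtain ⟨i, hi⟩ := Int.eq_ofNat_of_zero_le (show 0 ≤ n.1 + N by omega)
  obtain ⟨j, hj⟩ := Int.eq_ofNat_of_zero_le (show 0 ≤ n.2 + N by omega)
  have h2 := sub_eq_zero.1 (transcendental_iff.1 h1
    (X ^ i * (X + C 1) ^ j - C d * (X ^ N * (X + C 1) ^ N)) (by
      simp only [map_sub, map_mul, map_pow, aeval_X, map_add, aeval_C, map_one, add_comm x]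
      rw [← zpow_natCast, ← zpow_natCast _ j, ← hi, ← hj, zpow_add₀ x0, zpow_add₀ x1, sub_eq_zero]
      change _ = x ^ n.1 * (1 + x) ^ n.2 * _
      simp only [zpow_natCast]
      ring))
  have d0 : d ≠ 0 := fun e => u_ne n (congrArg Subtype.val e)
  have t0 : ∀ k, natTrailingDegree ((X + C 1 : S[X]) ^ k) = 0 := fun k =>
    natTrailingDegree_eq_zero.2 (Or.inr (by simp [coeff_zero_eq_eval_zero]))
  have p0 : ∀ k, (X + C 1 : S[X]) ^ k ≠ 0 := fun k => pow_ne_zero _ (X_add_C_ne_zero _)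
  have p1 : ∀ k, (X : S[X]) ^ k ≠ 0 := fun k => pow_ne_zero _ X_ne_zero
  have h3 := congrArg natTrailingDegree h2
  have h4 := congrArg natDegree h2
  rw [natTrailingDegree_mul (p1 _) (p0 _), natTrailingDegree_mul (C_ne_zero.2 d0)
    (mul_ne_zero (p1 _) (p0 _)), natTrailingDegree_mul (p1 _) (p0 _), t0, t0,
    natTrailingDegree_X_pow, natTrailingDegree_X_pow, natTrailingDegree_C] at h3
  rw [natDegree_mul (p1 _) (p0 _), natDegree_C_mul d0, natDegree_mul (p1 _) (p0 _)] at h4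
  simp only [natDegree_pow, natDegree_X, natDegree_X_add_C] at h4
  ext <;> simp <;> omega)

lemma u_smul (m : ℤ) (n : ℤ × ℤ) : u (m • n) = u n ^ m := by
  simp only [u, Prod.smul_fst, Prod.smul_snd, smul_eq_mul, mul_zpow, ← zpow_mul, mul_comm m]

@[ext] structure E where
  r : K
  n : ℤ × ℤ

noncomputable instance : Mul E := ⟨fun g h => ⟨g.r + u g.n * h.r, g.n + h.n⟩⟩
noncomputable instance : One E := ⟨⟨0, 0⟩⟩
noncomputable instance : Inv E := ⟨fun g => ⟨-((u g.n)⁻¹ * g.r), -g.n⟩⟩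

@[simp] lemma mul_r (g h : E) : (g * h).r = g.r + u g.n * h.r := rfl
@[simp] lemma mul_n (g h : E) : (g * h).n = g.n + h.n := rfl
@[simp] lemma one_r : (1 : E).r = 0 := rfl
@[simp] lemma one_n : (1 : E).n = 0 := rfl
@[simp] lemma inv_r (g : E) : (g⁻¹).r = -((u g.n)⁻¹ * g.r) := rfl
@[simp] lemma inv_n (g : E) : (g⁻¹).n = -g.n := rfl

@[simp] lemma u_neg (n : ℤ × ℤ) : u (-n) = (u n)⁻¹ :=
  eq_inv_of_mul_eq_one_left (by rw [← u_add, neg_add_cancel, u_zero])

noncomputable instance : Group E := Group.ofLeftAxioms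
  (fun a b c => by ext1 <;> simp [u_add, add_assoc, mul_add, mul_assoc])
  (fun a => by ext1 <;> simp) (fun a => by ext1 <;> simp)

noncomputable def π : E →* Multiplicative (ℤ × ℤ) :=
  MonoidHom.mk' (fun g => .ofAdd g.n) fun _ _ => rfl

lemma zpow_n (g : E) (m : ℤ) : (g ^ m).n = m • g.n := congrArg Multiplicative.toAdd (map_zpow π g m)

abbrev fo (i : Fin 3) : FreeGroup (Fin 3) := FreeGroup.of i

def rels : Set (FreeGroup (Fin 3)) :=
  {fo 1 * fo 2 * (fo 2 * fo 1)⁻¹,
    fo 0 * (fo 2 * fo 0 * (fo 2)⁻¹) * ((fo 2 * fo 0 * (fo 2)⁻¹) * fo 0)⁻¹,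
    fo 1 * fo 0 * (fo 1)⁻¹ * (fo 0 * (fo 2 * fo 0 * (fo 2)⁻¹))⁻¹}

instance : Finite rels := by unfold rels; infer_instance

abbrev G : Type := PresentedGroup rels

def a : G := .of 0
def s : G := .of 1
def t : G := .of 2

lemma rel1 : Commute s t := by
  have := PresentedGroup.one_of_mem (rels := rels) (Or.inl rfl)
  rw [map_mul, map_inv, mul_inv_eq_one] at this
  simp only [map_mul, map_inv] at this
  exact this
lemma rel2 : Commute a (t * a * t⁻¹) := by
  have := PresentedGroup.one_of_mem (rels := rels) (Or.inr (Or.inl rfl))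
  rw [map_mul, map_inv, mul_inv_eq_one] at this
  simp only [map_mul, map_inv] at this
  exact this
lemma rel3 : s * a * s⁻¹ = a * (t * a * t⁻¹) := by
  have := PresentedGroup.one_of_mem (rels := rels) (Or.inr (Or.inr rfl))
  rw [map_mul, map_inv, mul_inv_eq_one] at this
  simp only [map_mul, map_inv] at this
  exact this

noncomputable def ρ : G →* E :=
  PresentedGroup.toGroup (f := ![⟨1, 0⟩, ⟨0, (0, 1)⟩, ⟨0, (1, 0)⟩]) (by
    rintro _ (rfl | rfl | rfl) <;> ext1 <;> simp [u]; ring)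

lemma ρ_a : ρ a = ⟨1, 0⟩ := PresentedGroup.toGroup.of _
lemma ρ_s : ρ s = ⟨0, (0, 1)⟩ := PresentedGroup.toGroup.of _
lemma ρ_t : ρ t = ⟨0, (1, 0)⟩ := PresentedGroup.toGroup.of _

def an (n : ℕ) : G := t ^ n * a * (t ^ n)⁻¹

lemma an_t (n : ℕ) : t * an n * t⁻¹ = an (n + 1) := by simp only [an, pow_succ']; group

lemma an_s (n : ℕ) : s * an n * s⁻¹ = an n * an (n + 1) := by
  induction n with
  | zero => simpa [an] using rel3
  | succ n ih =>
    have : s * (t * an n * t⁻¹) * s⁻¹ = t * (s * an n * s⁻¹) * t⁻¹ := by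
      calc _ = (s * t) * an n * (s * t)⁻¹ := by group
        _ = (t * s) * an n * (t * s)⁻¹ := by rw [rel1.eq]
        _ = _ := by group
    rw [← an_t (n + 1), ← an_t n, this, ih, ← an_t n]
    group

lemma an_comm (i j : ℕ) : Commute (an i) (an j) := by
  have cj : ∀ g {x y : G}, Commute x y → Commute (g * x * g⁻¹) (g * y * g⁻¹) := fun g x y h => by
    simpa using h.map (MulAut.conj g)
  have sh : ∀ i j, Commute (an 0) (an j) → Commute (an i) (an (j + i)) := fun i j h => by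
    induction i with
    | zero => exact h
    | succ i ih => simpa only [an_t, add_assoc] using cj t ih
  have key : ∀ n, Commute (an 0) (an n) ∧ Commute (an 0) (an (n + 1)) := fun n => by
    induction n using Nat.strong_induction_on with
    | _ n ih =>
      rcases n with _ | n
      · exact ⟨.refl _, by simpa [an] using rel2⟩
      have h1 := (ih n (by omega)).2
      have h2 := cj s h1
      rw [an_s, an_s] at h2
      have h3 := (sh 1 n (ih n (by omega)).1).mul_right (sh 1 _ h1)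
      have h4 := h2.mul_left h3.inv_left
      rw [zero_add, mul_inv_cancel_right] at h4
      exact ⟨h1, by simpa using h1.inv_right.mul_right h4⟩
  wlog h : i ≤ j generalizing i j
  · exact (this j i (by omega)).symm
  obtain ⟨j, rfl⟩ := Nat.exists_eq_add_of_le' h
  exact sh i j (key j).1

lemma f_ex : ∃ f : ℤ[X] → G, (∀ p q, f (p + q) = f p * f q) ∧ f 1 = a ∧
    (∀ p, t * f p * t⁻¹ = f (X * p)) ∧ (∀ p, s * f p * s⁻¹ = f ((1 + X) * p)) ∧
    ∀ p, ρ (f p) = ⟨aeval x p, 0⟩ := by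
  let C := Subgroup.closure (Set.range an)
  have : IsMulCommutative C := Subgroup.isMulCommutative_closure (by
    rintro _ ⟨i, rfl⟩ _ ⟨j, rfl⟩; exact an_comm i j)
  let : CommGroup C := { mul_comm := mul_comm' }
  let φ : ℤ[X] →ₗ[ℤ] Additive C := (basisMonomials ℤ).constr ℤ fun n =>
    .ofMul ⟨an n, Subgroup.subset_closure ⟨n, rfl⟩⟩
  let f : Multiplicative ℤ[X] →* G := C.subtype.comp (AddMonoidHom.toMultiplicativeLeft φ)
  have h1 : ∀ n, f (.ofAdd (X ^ n)) = an n := fun n => by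
    have := (basisMonomials ℤ).constr_basis ℤ (fun n =>
      (.ofMul ⟨an n, Subgroup.subset_closure ⟨n, rfl⟩⟩ : Additive C)) n
    rw [← monomial_one_right_eq_X_pow]
    exact congrArg (fun z : Additive C => (z.toMul : G)) this
  have ind : ∀ {H : Type} [Group H] (α β : Multiplicative ℤ[X] →* H),
      (∀ n, α (.ofAdd (X ^ n)) = β (.ofAdd (X ^ n))) → ∀ p, α (.ofAdd p) = β (.ofAdd p) := by
    intro H _ α β h p
    induction p using Polynomial.induction_on' with
    | add p q c d => rw [ofAdd_add, map_mul, map_mul, c, d]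
    | monomial n c => rw [← smul_X_eq_monomial, ofAdd_zsmul, map_zpow, map_zpow, h]
  refine ⟨fun p => f (.ofAdd p), fun p q => map_mul f _ _, by simpa [an] using h1 0, ?_, ?_, ?_⟩
  · exact ind ((MulAut.conj t).toMonoidHom.comp f)
      (f.comp (AddMonoidHom.mulLeft X).toMultiplicative) fun n => by
        simp [h1, an_t, ← pow_succ']
  · exact ind ((MulAut.conj s).toMonoidHom.comp f)
      (f.comp (AddMonoidHom.mulLeft (1 + X)).toMultiplicative) fun n => by
        simp [h1, an_s, ← pow_succ', add_mul]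
  · exact ind (ρ.comp f) (MonoidHom.mk' (fun p => ⟨aeval x p.toAdd, 0⟩) fun p q => by
      ext1 <;> simp) fun n => by
        have : ρ t ^ n = ⟨0, (n, 0)⟩ := by
          induction n with
          | zero => rfl
          | succ n ih => rw [pow_succ, ih, ρ_t]; ext1 <;> simp
        ext1 <;> simp [h1, an, this, ρ_a, u]

lemma ρ_inj : Function.Injective ρ := by
  obtain ⟨f, f1, f2, f3, f4, f5⟩ := f_ex
  have f0 : f 0 = 1 := by simpa using f1 0 0
  have f6 : ∀ k p, (t * s) ^ k * f p * ((t * s) ^ k)⁻¹ = f ((X * (1 + X)) ^ k * p) := fun k p => by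
    induction k with
    | zero => simp
    | succ k ih => 
      rw [pow_succ', pow_succ' (X * _), mul_assoc (X * _), mul_assoc X, ← f3, ← f4, ← ih]
      simp only [mul_inv_rev, mul_assoc]
  let M : Subgroup G :=
    { carrier := {g | ∃ k p, (t * s) ^ k * g * ((t * s) ^ k)⁻¹ = f p}
      one_mem' := ⟨0, 0, by simp [f0]⟩
      mul_mem' := fun {g h} ⟨k, p, c⟩ ⟨l, q, d⟩ => ⟨k + l,
        (X * (1 + X)) ^ l * p + (X * (1 + X)) ^ k * q, by
        rw [f1, ← f6 l p, ← f6 k q, ← c, ← d]; group⟩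
      inv_mem' := fun {g} ⟨k, p, c⟩ => ⟨k, -p, eq_inv_of_mul_eq_one_left (a := f (-p))
        (by rw [← f1, neg_add_cancel, f0]) ▸ by rw [← c]; group⟩ }
  have c1 : Commute (t * s) t := (Commute.refl t).mul_left rel1
  have c2 : Commute (t * s) s := rel1.symm.mul_left (.refl s)
  have cj : ∀ {y g : G} (k : ℕ), Commute (t * s) y →
      (t * s) ^ k * (y * g * y⁻¹) * ((t * s) ^ k)⁻¹ =
        y * ((t * s) ^ k * g * ((t * s) ^ k)⁻¹) * y⁻¹ := fun {y g} k c => by
    calc _ = ((t * s) ^ k * y) * g * ((t * s) ^ k * y)⁻¹ := by group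
      _ = (y * (t * s) ^ k) * g * (y * (t * s) ^ k)⁻¹ := by rw [(c.pow_left k).eq]
      _ = _ := by group
  have m1 : ∀ g ∈ M, t * g * t⁻¹ ∈ M := fun g ⟨k, p, c⟩ => ⟨k, _, by rw [cj k c1, c, f3]⟩
  have m2 : ∀ g ∈ M, s * g * s⁻¹ ∈ M := fun g ⟨k, p, c⟩ => ⟨k, _, by rw [cj k c2, c, f4]⟩
  have m3 : ∀ g, t * s * g * (t * s)⁻¹ ∈ M → g ∈ M := fun g ⟨k, p, c⟩ =>
    ⟨k + 1, p, by rw [← c, pow_succ]; group⟩
  have m4 : a ∈ M := ⟨0, 1, by simp [f2]⟩
  have : M.Normal := Subgroup.normalizer_eq_top_iff.1 (eq_top_iff.2 (by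
    rw [← PresentedGroup.closure_range_of, Subgroup.closure_le]
    rintro _ ⟨i, rfl⟩
    fin_cases i
    · exact Subgroup.le_normalizer m4
    · exact Subgroup.mem_normalizer_iff.2 fun g => ⟨m2 g, fun c => m3 g (by
        simpa [mul_assoc] using m1 (s * g * s⁻¹) c)⟩
    · exact Subgroup.mem_normalizer_iff.2 fun g => ⟨m1 g, fun c => m3 g (by
        rw [← rel1.eq]; simpa [mul_assoc] using m2 (t * g * t⁻¹) c)⟩))
  let z : Multiplicative (ℤ × ℤ) →* G := MonoidHom.mk'
    (fun n => t ^ n.toAdd.1 * s ^ n.toAdd.2) fun n m => by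
      simp only [toAdd_mul, Prod.fst_add, Prod.snd_add, zpow_add, mul_assoc]
      rw [← mul_assoc (s ^ _), (rel1.zpow_zpow _ _).eq, mul_assoc]
  have h : (QuotientGroup.mk' M).comp (z.comp (π.comp ρ)) = QuotientGroup.mk' M := by
    refine PresentedGroup.ext fun i => ?_
    fin_cases i
    · exact (congrArg (QuotientGroup.mk' M) (show z (π (ρ a)) = 1 by simp [ρ_a, π, z])).trans
        ((QuotientGroup.eq_one_iff a).2 m4).symm
    · exact congrArg (QuotientGroup.mk' M) (show z (π (ρ s)) = s by simp [ρ_s, π, z])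
    · exact congrArg (QuotientGroup.mk' M) (show z (π (ρ t)) = t by simp [ρ_t, π, z])
  refine (injective_iff_map_eq_one _).2 fun g c => ?_
  have h1 := DFunLike.congr_fun h g
  simp only [MonoidHom.comp_apply, c, map_one] at h1
  obtain ⟨k, p, d⟩ := (QuotientGroup.eq_one_iff g).1 h1.symm
  have h2 := f5 p
  rw [← d] at h2
  simp only [map_mul, c, mul_one, map_inv, mul_inv_cancel] at h2
  rw [x_inj (congrArg E.r h2).symm, f0] at d
  simpa using d

end Pool.Agent.H.MP_d66326_al
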