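import Pool.Agent.H.MP_d66326_al.B

set_option autoImplicit false

namespace Pool.Agent.H.MP_d66326_al
open Polynomial

variable {H : Type} [Group H] (j : H →* E)

def MS (L : Subgroup H) : AddSubgroup K where
  carrier := {r | ∃ h ∈ L, j h = ⟨r, 0⟩}
  zero_mem' := ⟨1, one_mem _, map_one j⟩
  add_mem' := fun ⟨h, c, d⟩ ⟨h', c', d'⟩ =>
    ⟨h * h', mul_mem c c', by rw [map_mul, d, d']; ext1 <;> simp⟩
  neg_mem' := fun ⟨h, c, d⟩ => ⟨h⁻¹, inv_mem c, by rw [map_inv, d]; ext1 <;> simp⟩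

lemma conj_r (g h : H) {r : K} (d : j h = ⟨r, 0⟩) : j (g * h * g⁻¹) = ⟨u (j g).n * r, 0⟩ := by
  rw [map_mul, map_mul, map_inv, d]
  ext1 <;> simp [u_ne]

abbrev A (F : Type) [CommRing F] [Algebra F K] (c : K) : Subalgebra F K := Algebra.adjoin F {c, c⁻¹}

instance (F : Type) [CommRing F] [Algebra F K] [IsNoetherianRing F] (c : K) :
    IsNoetherianRing (A F c) := isNoetherianRing_of_fg ⟨{c, c⁻¹}, by simp⟩

lemma zpow_A (F : Type) [CommRing F] [Algebra F K] (c : K) (m : ℤ) : c ^ m ∈ A F c := by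
  rcases m with m | m
  · simpa using pow_mem (Algebra.subset_adjoin (by simp)) m
  · rw [zpow_negSucc, ← inv_pow]
    exact pow_mem (Algebra.subset_adjoin (by simp)) _

def MA (L : Subgroup H) {g : H} (hg : g ∈ L) : Submodule (A ℤ (u (j g).n)) K where
  toAddSubmonoid := (MS j L).toAddSubmonoid
  smul_mem' := fun ⟨a, ha⟩ y => by
    revert y
    change ∀ r ∈ MS j L, a * r ∈ MS j L
    induction ha using Algebra.adjoin_induction with
    | mem a ha =>
      rintro r ⟨h, c, d⟩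
      rcases ha with rfl | rfl
      · exact ⟨_, mul_mem (mul_mem hg c) (inv_mem hg), conj_r j g h d⟩
      · exact ⟨_, mul_mem (mul_mem (inv_mem hg) c) (inv_mem (inv_mem hg)), by
          simpa using conj_r j g⁻¹ h d⟩
    | algebraMap m => exact fun r c => by simpa using zsmul_mem c m
    | add a b _ _ c d => exact fun r e => add_mul a b r ▸ add_mem (c r e) (d r e)
    | mul a b _ _ c d => exact fun r e => mul_assoc a b r ▸ c _ (d r e)

lemma fgK (hj : Function.Injective j) (L : Subgroup H) {g : H} (hg : g ∈ L)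
    (h1 : ∀ h ∈ L, ∃ m : ℤ, (j h).n = m • (j g).n) (N : Submodule (A ℤ (u (j g).n)) K) (hN : N.FG)
    (h2 : ∀ r ∈ MS j L, r ∈ N) : L.FG := by
  classical
  obtain ⟨S, hS⟩ : (MA j L hg).FG := hN.of_le h2
  have : ∀ r : S, ∃ h ∈ L, j h = ⟨r, 0⟩ := fun r => hS.le (Submodule.subset_span r.2)
  choose l l1 l2 using this
  have g1 : g ∈ Subgroup.closure (insert g (Set.range l)) := Subgroup.subset_closure (by simp)
  refine (Subgroup.fg_iff _).2 ⟨insert g (Set.range l), le_antisymm ((Subgroup.closure_le _).2 ?_)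
    fun h c => ?_, (Set.finite_range l).insert g⟩
  · rintro _ (rfl | ⟨r, rfl⟩)
    exacts [hg, l1 r]
  obtain ⟨m, hm⟩ := h1 h c
  have e : j (h * g ^ (-m)) = ⟨(j (h * g ^ (-m))).r, 0⟩ := by
    ext1
    · rfl
    · simp [zpow_n, hm]
  have : MA j L hg ≤ MA j _ g1 := hS.ge.trans (Submodule.span_le.2 fun r d =>
    ⟨l ⟨r, d⟩, Subgroup.subset_closure (by simp), l2 _⟩)
  obtain ⟨k, c1, c2⟩ := this ⟨_, mul_mem c (zpow_mem hg _), e⟩
  simpa [hj (c2.trans e.symm)] using mul_mem c1 (zpow_mem g1 m)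

noncomputable def R : Subalgebra ℤ K := Algebra.adjoin ℤ {x, (x * (1 + x))⁻¹}

lemma u_R (n : ℤ × ℤ) : u n ∈ R := by
  have h1 : x ∈ R := Algebra.subset_adjoin (by simp)
  have h2 : (x * (1 + x))⁻¹ ∈ R := Algebra.subset_adjoin (by simp)
  have h3 : ∀ c ∈ R, c⁻¹ ∈ R → ∀ m : ℤ, c ^ m ∈ R := fun c d e m =>
    Algebra.adjoin_le (S := R) (by rintro _ (rfl | rfl); exacts [d, e]) (zpow_A ℤ c m)
  have := x0
  have := x1
  refine mul_mem (h3 _ h1 ?_ _) (h3 _ (add_mem (one_mem _) h1) ?_ _)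
  · exact (show (1 + x) * (x * (1 + x))⁻¹ = x⁻¹ by field_simp) ▸
      mul_mem (add_mem (one_mem _) h1) h2
  · exact (show x * (x * (1 + x))⁻¹ = (1 + x)⁻¹ by field_simp) ▸ mul_mem h1 h2

lemma ρ_R (g : G) : (ρ g).r ∈ R := by
  have : g ∈ Subgroup.closure (Set.range PresentedGroup.of) := by
    rw [PresentedGroup.closure_range_of]; trivial
  induction this using Subgroup.closure_induction with
  | one => simp
  | mul g h _ _ c d => rw [map_mul]; exact add_mem c (mul_mem (u_R _) d)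
  | inv g _ c => rw [map_inv, inv_r, ← u_neg]; exact neg_mem (mul_mem (u_R _) c)
  | mem g c =>
    obtain ⟨i, rfl⟩ := c
    fin_cases i
    exacts [(congrArg E.r ρ_a).symm ▸ one_mem R, (congrArg E.r ρ_s).symm ▸ zero_mem R,
      (congrArg E.r ρ_t).symm ▸ zero_mem R]

lemma R_fin {d : ℤ} (h : d ≠ 0) : ∃ N : Submodule (A ℤ (u (d, d))) K, N.FG ∧ ∀ r ∈ R, r ∈ N := by
  have h0 : u (d, d) = (x * (1 + x)) ^ d := by rw [u, mul_zpow]
  have h1 : (x * (1 + x)) ^ d.natAbs ∈ A ℤ (u (d, d)) ∧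
      (x * (1 + x))⁻¹ ^ d.natAbs ∈ A ℤ (u (d, d)) := by
    have c := zpow_A ℤ (u (d, d))
    rw [inv_pow, ← zpow_natCast, ← zpow_neg]
    rcases Int.natAbs_eq d with e | e
    · exact ⟨by simpa [← e, h0] using c 1, by simpa [← e, h0] using c (-1)⟩
    · rw [show (d.natAbs : ℤ) = -d by omega]
      exact ⟨by simpa [h0] using c (-1), by simpa [h0] using c 1⟩
  have p := Int.natAbs_pos.2 h
  have h2 : ∀ y : K, y ^ d.natAbs ∈ A ℤ (u (d, d)) → IsIntegral (A ℤ (u (d, d))) y := fun y c =>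
    IsIntegral.of_pow p (isIntegral_algebraMap (x := (⟨_, c⟩ : A ℤ (u (d, d)))))
  have h3 : IsIntegral (A ℤ (u (d, d))) x := by
    refine IsIntegral.of_aeval_monic (p := X * (X + C 1)) (monic_X.mul (monic_X_add_C _)) ?_ ?_
    · rw [natDegree_mul X_ne_zero (X_add_C_ne_zero _)]; simp
    · simpa [add_comm] using h2 _ h1.1
  refine ⟨_, fg_adjoin_of_finite (s := {x, (x * (1 + x))⁻¹}) (by simp) ?_, fun r c => ?_⟩
  · rintro _ (rfl | rfl)
    exacts [h3, h2 _ h1.2]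
  · have : R ≤ (Algebra.adjoin (A ℤ (u (d, d))) {x, (x * (1 + x))⁻¹}).restrictScalars ℤ :=
      Algebra.adjoin_le fun y k => (Subalgebra.mem_restrictScalars ℤ).2 (Algebra.subset_adjoin k)
    exact (Subalgebra.mem_toSubmodule _).2 ((Subalgebra.mem_restrictScalars ℤ).1 (this c))

lemma toInt [Group.FG H] (χ : H →* Multiplicative ℚ) :
    ∃ χ' : H →* Multiplicative ℤ, χ'.ker = χ.ker := by
  obtain ⟨S, hS⟩ := Group.fg_def.1 ‹_›
  let N : ℕ := ∏ s ∈ S, (χ s).toAdd.den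
  have N0 : (N : ℚ) ≠ 0 := by exact_mod_cast Finset.prod_ne_zero_iff.2 fun s _ => Rat.den_nz _
  have : ∀ h, ∃ z : ℤ, (z : ℚ) = N * (χ h).toAdd := fun h => by
    have : h ∈ Subgroup.closure (S : Set H) := hS ▸ trivial
    induction this using Subgroup.closure_induction with
    | one => exact ⟨0, by simp⟩
    | mul g h _ _ c d =>
      obtain ⟨a, c⟩ := c
      obtain ⟨b, d⟩ := d
      exact ⟨a + b, by simp [c, d, mul_add]⟩
    | inv g _ c => exact c.elim fun a c => ⟨-a, by simp [c]⟩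
    | mem s c =>
      obtain ⟨k, hk⟩ : (χ s).toAdd.den ∣ N := Finset.dvd_prod_of_mem _ c
      exact ⟨k * (χ s).toAdd.num, by rw [hk]; push_cast; rw [← Rat.mul_den_eq_num]; ring⟩
  choose z hz using this
  refine ⟨MonoidHom.mk' (fun h => .ofAdd (z h)) fun a b => congrArg Multiplicative.ofAdd
    (Int.cast_injective (α := ℚ) (by simp [hz, mul_add])), Subgroup.ext fun h => ?_⟩
  change z h = 0 ↔ (χ h).toAdd = 0
  rw [← Int.cast_inj (α := ℚ), hz]
  simp [N0]

lemma nounit {c : K} (h : Transcendental ℚ c) {a : K} (ha : a ∈ A ℚ c) : (c - 1) * a ≠ -1 := by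
  have c0 : c ≠ 0 := by rintro rfl; exact h isAlgebraic_zero
  have : ∃ k p, a * c ^ k = aeval c (p : ℚ[X]) := by
    induction ha using Algebra.adjoin_induction with
    | mem a ha =>
      rcases ha with rfl | rfl
      · exact ⟨0, X, by simp⟩
      · exact ⟨1, 1, by simp [c0]⟩
    | algebraMap m => exact ⟨0, C m, by simp⟩
    | add a b _ _ d e =>
      obtain ⟨k, p, d⟩ := d
      obtain ⟨l, q, e⟩ := e
      exact ⟨k + l, p * X ^ l + q * X ^ k, by simp [← d, ← e]; ring⟩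
    | mul a b _ _ d e =>
      obtain ⟨k, p, d⟩ := d
      obtain ⟨l, q, e⟩ := e
      exact ⟨k + l, p * q, by simp [← d, ← e]; ring⟩
  obtain ⟨k, p, d⟩ := this
  intro e
  have := transcendental_iff.1 h ((X - 1) * p + X ^ k) (by
    simp only [map_add, map_mul, map_sub, aeval_X, map_one, map_pow, ← d, ← mul_assoc, e]; ring)
  simpa using congrArg (eval 1) this

lemma functional {c : K} (tr : Transcendental ℚ c) {S : Set K} (hS : S.Finite)
    (h : Submodule.span (A ℚ c) S ≠ ⊥) : ∃ l : K →ₗ[ℚ] ℚ, ∃ s ∈ S, l s ≠ 0 ∧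
      ∀ m : ℤ, ∀ y ∈ Submodule.span (A ℚ c) S, l (c ^ m * y) = l y := by
  have c0 : c ≠ 0 := by rintro rfl; exact tr isAlgebraic_zero
  let b : A ℚ c := ⟨c - 1, sub_mem (Algebra.subset_adjoin (by simp)) (one_mem _)⟩
  obtain ⟨s, s0, s1⟩ : ∃ s ∈ S, s ∉ Ideal.span {b} • Submodule.span (A ℚ c) S := by
    by_contra e
    push Not at e
    obtain ⟨a, a1, a2⟩ := Submodule.exists_sub_one_mem_and_smul_eq_zero_of_fg_of_le_smul _ _
      (Submodule.fg_span hS) (Submodule.span_le.2 e)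
    obtain ⟨b, a1⟩ := Ideal.mem_span_singleton.1 a1
    have a0 : (a : K) ≠ 0 := fun k => nounit tr b.2 (by
      have : (a : K) - 1 = (c - 1) * b := congrArg Subtype.val a1
      rw [← this, k, zero_sub])
    exact h (eq_bot_iff.2 fun y d =>
      (mul_eq_zero.1 (show (a : K) * y = 0 from a2 y d)).resolve_left a0)
  obtain ⟨l, l1, l2⟩ := Submodule.exists_le_ker_of_notMem
    (p := (Ideal.span {b} • Submodule.span (A ℚ c) S).restrictScalars ℚ) s1
  have l3 : ∀ y ∈ Submodule.span (A ℚ c) S, l (c * y) = l y := fun y d => by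
    have e := Submodule.smul_mem_smul (Ideal.mem_span_singleton_self b) d
    have := LinearMap.mem_ker.1 (l2 ((Submodule.restrictScalars_mem ℚ _ _).2 e))
    rwa [show b • y = (c - 1) * y from rfl, sub_mul, one_mul, map_sub, sub_eq_zero] at this
  have l4 : ∀ m : ℤ, ∀ y ∈ Submodule.span (A ℚ c) S, l (c ^ (1 + m) * y) = l (c ^ m * y) :=
    fun m y d => by
      rw [zpow_add₀ c0, zpow_one, mul_assoc]
      exact l3 _ (Submodule.smul_mem _ ⟨_, zpow_A _ _ m⟩ d)
  refine ⟨l, s, s0, l1, fun m y d => ?_⟩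
  induction m using Int.induction_on with
  | zero => simp
  | succ m ih => rw [add_comm, l4 _ y d, ih]
  | pred m ih => rw [← l4 _ y d, ← ih, add_sub_cancel]

noncomputable def V (L : Subgroup H) : Submodule ℚ K := Submodule.span ℚ (MS j L)

lemma cyc [Group.FG H] (hj : Function.Injective j) (hV : ¬ (V j ⊤).FG) (g : H)
    (h1 : ∀ h, ∃ m : ℤ, (j h).n = m • (j g).n) :
    ∃ χ : H →* Multiplicative ℤ, χ.ker ≠ ⊤ ∧ χ.ker.FG := by
  classical
  obtain ⟨S, hS⟩ := Group.fg_def.1 ‹_›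
  have ind : ∀ {P : H → Prop}, (∀ s ∈ S, P s) → P 1 → (∀ a b, P a → P b → P (a * b)) →
      (∀ a, P a → P a⁻¹) → ∀ h, P h := fun {P} c1 c2 c3 c4 h =>
    Subgroup.closure_induction (k := (S : Set H)) (p := fun h _ => P h) c1 c2
      (fun a b _ _ => c3 a b) (fun a _ => c4 a) (hS ▸ trivial)
  by_cases g0 : (j g).n = 0
  · refine absurd (Submodule.FG.of_le (Submodule.fg_span (S.finite_toSet.image fun s => (j s).r))
      (Submodule.span_le.2 ?_)) hV
    have n0 : ∀ h, (j h).n = 0 := fun h => (h1 h).elim fun m c => by simp [c, g0]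
    rintro r ⟨h, -, c⟩
    rw [show r = (j h).r from (congrArg E.r c).symm]
    exact ind (P := fun h => (j h).r ∈ Submodule.span ℚ ((fun s => (j s).r) '' S))
      (fun s d => Submodule.subset_span ⟨s, d, rfl⟩) (by simp)
      (fun a b d e => by simpa [n0] using add_mem d e) (fun a d => by simpa [n0] using d) h
  have tr := u_tr g0
  have u1 : u (j g).n - 1 ≠ 0 := fun e => tr (sub_eq_zero.1 e ▸ isAlgebraic_one)
  let r : H → K := fun h => (j h).r - (u (j h).n - 1) * ((j g).r / (u (j g).n - 1))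
  have r0 : r 1 = 0 := by simp [r]
  have r1 : r g = 0 := by simp only [r]; field_simp; ring
  have r2 : ∀ a b, r (a * b) = r a + u (j a).n * r b := fun a b => by simp [r, u_add]; ring
  have r3 : ∀ a, r a⁻¹ = -((u (j a).n)⁻¹ * r a) := fun a => by
    have := u_ne (j a).n
    simp only [r, map_inv, inv_r, inv_n, u_neg]; field_simp; ring
  have r4 : ∀ (F : Type) [CommRing F] [Algebra F K] h,
      r h ∈ Submodule.span (A F (u (j g).n)) (r '' S) := fun F _ _ => by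
    have uA : ∀ h, u (j h).n ∈ A F (u (j g).n) ∧ (u (j h).n)⁻¹ ∈ A F (u (j g).n) := fun h =>
      (h1 h).elim fun m c => by
        rw [c, u_smul, ← zpow_neg]; exact ⟨zpow_A _ _ _, zpow_A _ _ _⟩
    exact ind (fun s d => Submodule.subset_span ⟨s, d, rfl⟩) (by simp [r0])
      (fun a b d e => r2 a b ▸ add_mem d (Submodule.smul_mem _ ⟨_, (uA a).1⟩ e))
      fun a d => r3 a ▸ neg_mem (Submodule.smul_mem _ ⟨_, (uA a).2⟩ d)
  have r5 : ∀ {h y}, j h = ⟨y, 0⟩ → r h = y := fun c => by simp [r, c]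
  clear_value r
  obtain ⟨l, _, ⟨s, -, rfl⟩, l1, l4⟩ := functional tr (S.finite_toSet.image r) fun e =>
    hV (Submodule.FG.of_le Submodule.fg_bot (Submodule.span_le.2 (by
      rintro y ⟨h, -, d⟩
      exact r5 d ▸ e.le (r4 ℚ h))))
  let χ : H →* Multiplicative ℚ := MonoidHom.mk' (fun h => .ofAdd (l (r h))) fun a b => by
    obtain ⟨m, d⟩ := h1 a
    rw [r2, map_add, d, u_smul, l4 m _ (r4 ℚ b), ofAdd_add]
  obtain ⟨χ', e⟩ := toInt χ
  refine ⟨χ', e ▸ fun k => l1 (k.ge (Subgroup.mem_top s)), e ▸ fgK j hj _ (g := g)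
    (show l (r g) = 0 by simp [r1]) (fun h _ => h1 h) _
    (Submodule.fg_span (S.finite_toSet.image r)) ?_⟩
  rintro y ⟨h, -, d⟩
  exact r5 d ▸ r4 ℤ h

lemma gen1 (L : Subgroup H) (κ : ℤ × ℤ →+ ℤ) (h : ∀ h ∈ L, κ (j h).n = 0 → (j h).n = 0) :
    ∃ g ∈ L, ∀ h ∈ L, ∃ m : ℤ, (j h).n = m • (j g).n := by
  obtain ⟨a, ha⟩ := Int.subgroup_cyclic ((L.map (π.comp j)).toAddSubgroup'.map κ)
  obtain ⟨_, ⟨g, c, rfl⟩, d⟩ := ha.ge (AddSubgroup.subset_closure rfl)
  refine ⟨g, c, fun k e => ?_⟩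
  obtain ⟨m, hm⟩ := AddSubgroup.mem_closure_singleton.1 (ha.le ⟨(j k).n, ⟨k, e, rfl⟩, rfl⟩)
  have := h (k * g ^ (-m)) (mul_mem e (zpow_mem c _)) (by
    rw [map_mul, map_zpow, mul_n, zpow_n, map_add, map_zsmul, ← hm, show κ (j g).n = a from d]
    simp)
  rw [map_mul, map_zpow, mul_n, zpow_n, neg_smul, add_neg_eq_zero] at this
  exact ⟨m, this⟩

theorem split [Group.FG H] (hj : Function.Injective j) (hR : ∀ h, (j h).r ∈ R)
    (hV : ¬ (V j ⊤).FG) : ∃ χ : H →* Multiplicative ℤ, χ.ker ≠ ⊤ ∧ χ.ker.FG := by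
  let κ : ℤ × ℤ →+ ℤ := AddMonoidHom.fst ℤ ℤ - AddMonoidHom.snd ℤ ℤ
  let χ : H →* Multiplicative ℤ := κ.toMultiplicative.comp (π.comp j)
  have k : ∀ h, h ∈ χ.ker ↔ (j h).n.1 = (j h).n.2 := fun h =>
    sub_eq_zero (a := (j h).n.1)
  obtain ⟨g, g1, g2⟩ := gen1 j χ.ker (AddMonoidHom.fst ℤ ℤ) fun h c d =>
    Prod.ext d (((k h).1 c).symm.trans d)
  by_cases c : χ.ker = ⊤
  · exact cyc j hj hV g fun h => g2 h (c ▸ trivial)
  by_cases d : (j g).n.1 = 0
  · obtain ⟨g', -, g3⟩ := gen1 j ⊤ κ fun h _ e => (g2 h ((k h).2 (sub_eq_zero.1 e))).elim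
      fun m l => by rw [l, show (j g).n = 0 from Prod.ext d (((k g).1 g1).symm.trans d), smul_zero]
    exact cyc j hj hV g' fun h => g3 h trivial
  · have := R_fin d
    rw [show ((j g).n.1, (j g).n.1) = (j g).n from Prod.ext rfl ((k g).1 g1)] at this
    obtain ⟨N, n1, n2⟩ := this
    exact ⟨χ, c, fgK j hj _ g1 g2 N n1 fun r ⟨h, _, e⟩ => n2 _ (by simpa [e] using hR h)⟩

lemma V_G : ¬ (V ρ ⊤).FG := fun h => by
  obtain ⟨f, -, -, -, -, f5⟩ := f_ex
  have := Module.Finite.iff_fg.2 h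
  have h1 : LinearIndependent ℚ fun n : ℕ => x ^ n := by
    simpa [Function.comp_def, monomial_one_right_eq_X_pow] using
      (basisMonomials ℚ).linearIndependent.map' (aeval x).toLinearMap
        (LinearMap.ker_eq_bot.2 (transcendental_iff_injective.1 x_tr))
  have h2 : LinearIndependent ℚ fun n : ℕ => (⟨x ^ n, Submodule.subset_span
      ⟨f (X ^ n), trivial, by simp [f5]⟩⟩ : V ρ ⊤) := .of_comp (V ρ ⊤).subtype h1
  exact Module.Finite.not_linearIndependent_of_infinite _ h2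

end Pool.Agent.H.MP_d66326_al
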