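import Pool.Agent.H.MP_d66326_al.A
import Pool.Agent.H.MP_d66326_al.C

set_option autoImplicit false

namespace Pool.Agent.H.MP_d66326_al
open MulAction

variable {H : Type} [Group H] (j : H →* E)

lemma V_sub (L : Subgroup H) : V (j.comp L.subtype) ⊤ = V j L :=
  congrArg (Submodule.span ℚ) (Set.ext fun _ =>
    ⟨fun ⟨h, _, c⟩ => ⟨h, h.2, c⟩, fun ⟨h, c, d⟩ => ⟨⟨h, c⟩, trivial, d⟩⟩)

noncomputable def ι : Multiplicative K →* E :=
  MonoidHom.mk' (fun r => ⟨r.toAdd, 0⟩) fun a b => by ext1 <;> simp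

theorem vert (hj : Function.Injective j) {T : Type} {Γ : SimpleGraph T} (hT : Γ.IsTree)
    [MulAction H T] (hA : ∀ (g : H) u v, Γ.Adj u v → Γ.Adj (g • u) (g • v))
    (hI : ∀ (g : H) u v, Γ.Adj u v → ¬ (g • u = v ∧ g • v = u)) {F : Set T} (hF : F.Finite)
    (h1 : ∀ v, ∃ g : H, g • v ∈ F) (h2 : ∀ v ∈ F, (V j (stabilizer H v)).FG) : (V j ⊤).FG := by
  classical
  have cm : ∀ {a b : H} {r r'}, j a = ⟨r, 0⟩ → j b = ⟨r', 0⟩ → Commute a b := fun c d =>
    hj (by rw [map_mul, map_mul, c, d]; ext1 <;> simp [add_comm])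
  have cj : ∀ (g : H) (v : T) r, r ∈ MS j (stabilizer H v) →
      u (j g).n * r ∈ MS j (stabilizer H (g • v)) := fun g v r ⟨h, c, d⟩ =>
    ⟨_, by simp [mul_smul, show h • v = v from c], conj_r j g h d⟩
  by_cases c : ∀ h r, j h = ⟨r, 0⟩ → ∃ v : T, h • v = v
  · obtain ⟨D, hD⟩ := (hF.image fun v => Module.finrank ℚ (V j (stabilizer H v))).bddAbove
    obtain ⟨b, b1, b2, b3⟩ := exists_linearIndependent ℚ (MS j ⊤ : Set K)
    rw [V, ← b2]
    refine Submodule.fg_span (by_contra fun b4 => ?_)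
    obtain ⟨s, s1, s2⟩ := Set.Infinite.exists_subset_card_eq b4 (D + 1)
    choose l _ l2 using fun r : s => b1 (s1 r.2)
    obtain ⟨v, hv⟩ := common hT hA (Finset.univ.image l) (by
      simp only [Finset.mem_image, Finset.mem_univ, true_and]
      rintro _ ⟨r, rfl⟩ _ ⟨r', rfl⟩
      exact cm (l2 r) (l2 r')) fun a d => by
      obtain ⟨r, -, rfl⟩ := Finset.mem_image.1 d
      exact c _ _ (l2 r)
    obtain ⟨g, hg⟩ := h1 v
    have := Module.Finite.iff_fg.2 (h2 _ hg)
    have i1 : LinearIndependent ℚ fun r : s => u (j g).n * r :=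
      (b3.comp (Set.inclusion s1) (Set.inclusion_injective _)).map'
        (LinearMap.mulLeft ℚ (u (j g).n))
        (LinearMap.ker_eq_bot.2 (mul_right_injective₀ (u_ne _)))
    have i2 : LinearIndependent ℚ fun r : s => (⟨u (j g).n * r, Submodule.subset_span
        (cj g v r ⟨l r, hv _ (by simp), l2 r⟩)⟩ : V j (stabilizer H (g • v))) :=
      .of_comp (V j _).subtype i1
    have := i2.fintype_card_le_finrank.trans (hD ⟨_, hg, rfl⟩)
    simp [s2] at this
  push Not at c
  obtain ⟨a, r0, a1, a2⟩ := c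
  have h3 : ∀ v : T, (V j (stabilizer H v)).FG := fun v => by
    obtain ⟨g, hg⟩ := h1 v
    refine ((h2 _ hg).map (LinearMap.mulLeft ℚ (u (j g).n)⁻¹)).of_le (Submodule.span_le.2
      fun r d => ⟨_, Submodule.subset_span (cj g v r d), by simp [u_ne]⟩)
  have := hT.connected.nonempty
  obtain ⟨x, hx⟩ : ∃ x : T, ∀ y, Γ.dist x (a • x) ≤ Γ.dist y (a • y) :=
    ⟨Function.argmin fun x => Γ.dist x (a • x), fun y =>
      Function.argmin_le (fun x => Γ.dist x (a • x)) y⟩
  have y1 := fin_btw hT x (a • x)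
  refine ((Submodule.fg_span_singleton r0).sup (Submodule.fg_biSup y1.toFinset _
    fun v _ => h3 v)).of_le (Submodule.span_le.2 ?_)
  rintro r ⟨b, -, b1⟩
  choose n hn using fun i : ℕ => onaxis hT hA a2 (hI a) hx (y := b ^ i • x) (by
    rw [smul_smul, ((cm a1 b1).pow_right i).eq, mul_smul, iso hT hA])
  obtain ⟨i, k, c1, c2⟩ := y1.exists_lt_map_eq_of_forall_mem hn
  have c3 : ((n k - n i : ℤ) : ℚ) • r0 + ((k : ℚ) - i) • r ∈
      V j (stabilizer H (a ^ n i • b ^ i • x)) := Submodule.subset_span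
    ⟨a ^ n k * b ^ k * (a ^ n i * b ^ i)⁻¹, by
      rw [mem_stabilizer_iff, ← mul_smul (a ^ n i), smul_smul, inv_mul_cancel_right, mul_smul,
        ← c2, mul_smul], by
      simp only [map_mul, map_inv, map_zpow, map_pow, show j a = ι (.ofAdd r0) from a1,
        show j b = ι (.ofAdd r) from b1]
      simp only [← map_zpow, ← map_pow, ← map_mul, ← map_inv]
      ext1
      · simp [ι, Rat.smul_def]; ring
      · rfl⟩
  have c4 : (k : ℚ) - i ≠ 0 := sub_ne_zero.2 (by exact_mod_cast c1.ne')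
  rw [SetLike.mem_coe, ← Submodule.smul_mem_iff _ c4, 
    ← add_sub_cancel_left (((n k - n i : ℤ) : ℚ) • r0) (((k : ℚ) - i) • r)]
  exact sub_mem (Submodule.mem_sup_right (Submodule.mem_iSup_of_mem _ (Submodule.mem_iSup_of_mem
    (y1.mem_toFinset.2 (hn i)) c3))) (Submodule.mem_sup_left
      (Submodule.smul_mem _ _ (Submodule.mem_span_singleton_self _)))

lemma lineTree : (SimpleGraph.hasse ℤ).IsTree := by
  refine ⟨⟨SimpleGraph.hasse_preconnected_of_succ ℤ⟩,
    SimpleGraph.isAcyclic_iff_forall_adj_isBridge.2 fun v w h => ?_⟩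
  wlog c : w = v + 1 generalizing v w
  · rw [Sym2.eq_swap]
    exact this _ _ h.symm (by simp only [SimpleGraph.hasse_adj, Order.covBy_iff_add_one_eq] at h; omega)
  subst c
  have : ∀ a b, ((SimpleGraph.hasse ℤ).deleteEdges {s(v, v + 1)}).Reachable a b →
      (a ≤ v ↔ b ≤ v) := by
    rintro a b ⟨p⟩
    induction p with
    | nil => rfl
    | cons e _ ih =>
      simp [Order.covBy_iff_add_one_eq] at e
      omega
  exact fun k => by simpa using this _ _ k

end Pool.Agent.H.MP_d66326_al
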